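import Pool.Agent.Helper61.Blk.Upper

set_option autoImplicit false

namespace Pool.Agent.Helper61.Blk

open Finset Function

/-- the link graph of `S` -/
def linkGraph {V : Type} [DecidableEq V] (E : Finset (Finset V)) (S : Finset V) :
    SimpleGraph {x : V // x ∉ S} where
  Adj x y := x ≠ y ∧ insert x.1 (insert y.1 S) ∈ E
  symm := ⟨fun x y h => ⟨h.1.symm, by rw [Finset.insert_comm]; exact h.2⟩⟩
  loopless := ⟨fun x h => h.1 rfl⟩

theorem link_connected {V : Type} [Fintype V] [DecidableEq V] {m : ℕ} {E : Finset (Finset V)}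
    (hE : IsBlocking (m + 2) E) {S : Finset V} (hS : S.card = m) (hV : m + 2 ≤ Fintype.card V) :
    (linkGraph E S).Connected := by
  classical
  have hne : Nonempty {x : V // x ∉ S} := by
    have : ∃ x, x ∉ S := by
      by_contra h
      push Not at h
      have : S = univ := Finset.eq_univ_iff_forall.2 h
      rw [this, card_univ] at hS
      omega
    obtain ⟨x, hx⟩ := this
    exact ⟨⟨x, hx⟩⟩
  rw [SimpleGraph.connected_iff]
  refine ⟨?_, hne⟩
  intro a b
  by_contra hab
  set A : V → Prop := fun x => ∃ h : x ∉ S, (linkGraph E S).Reachable a ⟨x, h⟩ with hA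
  let c : V → (S : Type) ⊕ Bool := fun x =>
    if h : x ∈ S then Sum.inl ⟨x, h⟩ else Sum.inr (decide (A x))
  have hc : Surjective c := by
    rintro (⟨s, hs⟩ | b')
    · exact ⟨s, by simp [c, hs]⟩
    · cases b' with
      | true =>
        refine ⟨a.1, ?_⟩
        have : A a.1 := ⟨a.2, SimpleGraph.Reachable.refl _⟩
        simp only [c, a.2, dite_false]
        rw [decide_eq_true this]
      | false =>
        refine ⟨b.1, ?_⟩
        have : ¬ A b.1 := fun ⟨h, h'⟩ => hab h'
        simp only [c, b.2, dite_false]
        rw [decide_eq_false this]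
  have hC : Fintype.card ((S : Type) ⊕ Bool) = m + 2 := by
    rw [Fintype.card_sum, Fintype.card_coe, hS, Fintype.card_bool]
  obtain ⟨e, he, hm⟩ := hE.blocks' hC c hc
  have hSe : S ⊆ e := by
    intro s hs
    obtain ⟨x, hx, hxs⟩ := hm (Sum.inl ⟨s, hs⟩)
    by_cases h : x ∈ S
    · simp only [c, h, dite_true, Sum.inl.injEq, Subtype.mk.injEq] at hxs
      rwa [← hxs]
    · simp [c, h] at hxs
  obtain ⟨x, hx, hxc⟩ := hm (Sum.inr true)
  obtain ⟨y, hy, hyc⟩ := hm (Sum.inr false)
  have hxS : x ∉ S := fun h => by simp [c, h] at hxc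
  have hyS : y ∉ S := fun h => by simp [c, h] at hyc
  have hxA : A x := by
    simp only [c, hxS, dite_false, Sum.inr.injEq, decide_eq_true_eq] at hxc
    exact hxc
  have hyA : ¬ A y := by
    simp only [c, hyS, dite_false, Sum.inr.injEq, decide_eq_false_iff_not] at hyc
    exact hyc
  have hxy : x ≠ y := fun h => hyA (h ▸ hxA)
  have hins : insert x (insert y S) = e := by
    refine Finset.eq_of_subset_of_card_le ?_ ?_
    · intro z hz
      rcases Finset.mem_insert.1 hz with rfl | hz
      · exact hx
      rcases Finset.mem_insert.1 hz with rfl | hz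
      · exact hy
      · exact hSe hz
    · rw [hE.card e he, Finset.card_insert_of_notMem, Finset.card_insert_of_notMem hyS, hS]
      simp [hxy, hxS]
  obtain ⟨hx', hr⟩ := hxA
  refine hyA ⟨hyS, hr.trans (SimpleGraph.Adj.reachable ?_)⟩
  refine ⟨fun h => hxy (congrArg Subtype.val h), ?_⟩
  simp only
  rw [hins]
  exact he

theorem edge_inj {V : Type} [DecidableEq V] {S : Finset V} (p q p' q' : {x : V // x ∉ S})
    (hh : insert p.1 (insert q.1 S) = insert p'.1 (insert q'.1 S)) : s(p, q) = s(p', q') := by
  have hp : p.1 = p'.1 ∨ p.1 = q'.1 := by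
    have : p.1 ∈ insert p'.1 (insert q'.1 S) := by rw [← hh]; exact mem_insert_self _ _
    rcases mem_insert.1 this with h | h
    · exact Or.inl h
    rcases mem_insert.1 h with h | h
    · exact Or.inr h
    · exact absurd h p.2
  have hq : q.1 = p'.1 ∨ q.1 = q'.1 := by
    have : q.1 ∈ insert p'.1 (insert q'.1 S) := by
      rw [← hh]; exact mem_insert_of_mem (mem_insert_self _ _)
    rcases mem_insert.1 this with h | h
    · exact Or.inl h
    rcases mem_insert.1 h with h | h
    · exact Or.inr h
    · exact absurd h q.2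
  have hp' : p'.1 = p.1 ∨ p'.1 = q.1 := by
    have : p'.1 ∈ insert p.1 (insert q.1 S) := by rw [hh]; exact mem_insert_self _ _
    rcases mem_insert.1 this with h | h
    · exact Or.inl h
    rcases mem_insert.1 h with h | h
    · exact Or.inr h
    · exact absurd h p'.2
  have hq' : q'.1 = p.1 ∨ q'.1 = q.1 := by
    have : q'.1 ∈ insert p.1 (insert q.1 S) := by
      rw [hh]; exact mem_insert_of_mem (mem_insert_self _ _)
    rcases mem_insert.1 this with h | h
    · exact Or.inl h
    rcases mem_insert.1 h with h | h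
    · exact Or.inr h
    · exact absurd h q'.2
  rw [Sym2.eq_iff]
  rcases hp with hp | hp <;> rcases hq with hq | hq
  · -- p = p', q = p'
    have : p = p' := Subtype.ext hp
    subst this
    have : q = p := Subtype.ext hq
    subst this
    left
    refine ⟨rfl, ?_⟩
    rcases hq' with h | h <;> exact (Subtype.ext h).symm
  · left; exact ⟨Subtype.ext hp, Subtype.ext hq⟩
  · right; exact ⟨Subtype.ext hp, Subtype.ext hq⟩
  · have : p = q' := Subtype.ext hp
    subst this
    have : q = p := Subtype.ext hq
    subst this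
    right
    refine ⟨rfl, ?_⟩
    rcases hp' with h | h <;> exact (Subtype.ext h).symm

theorem card_link {V : Type} [Fintype V] [DecidableEq V] {m : ℕ} {E : Finset (Finset V)}
    (hE : IsBlocking (m + 2) E) {S : Finset V} (hS : S.card = m) (hV : m + 2 ≤ Fintype.card V) :
    Fintype.card V - m - 1 ≤ (E.filter (fun e => S ⊆ e)).card := by
  classical
  have h1 := (link_connected hE hS hV).card_vert_le_card_edgeSet_add_one
  have h2 : Nat.card {x : V // x ∉ S} = Fintype.card V - m := by
    rw [Nat.card_eq_fintype_card, Fintype.card_subtype_compl]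
    simp [hS]
  have h3 : Nat.card (linkGraph E S).edgeSet ≤ (E.filter (fun e => S ⊆ e)).card := by
    rw [Nat.card_eq_fintype_card, ← SimpleGraph.edgeFinset_card]
    refine Finset.card_le_card_of_injOn
      (fun z => insert z.out.1.1 (insert z.out.2.1 S)) ?_ ?_
    · intro z hz
      have hz' : z ∈ (linkGraph E S).edgeSet := by
        simpa using hz
      have hout : s(z.out.1, z.out.2) = z := by
        exact z.out_eq
      rw [← hout, SimpleGraph.mem_edgeSet] at hz'
      rw [Finset.mem_coe, mem_filter]
      refine ⟨hz'.2, ?_⟩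
      intro s hs
      exact mem_insert_of_mem (mem_insert_of_mem hs)
    · intro z hz z' hz' hh
      have hout : s(z.out.1, z.out.2) = z := z.out_eq
      have hout' : s(z'.out.1, z'.out.2) = z' := z'.out_eq
      rw [← hout, ← hout']
      exact edge_inj _ _ _ _ hh
  omega

theorem lower_card {V : Type} [Fintype V] [DecidableEq V] {m : ℕ} {E : Finset (Finset V)}
    (hE : IsBlocking (m + 2) E) (hV : m + 2 ≤ Fintype.card V) :
    (Fintype.card V).choose m * (Fintype.card V - m - 1) ≤ (m + 2).choose 2 * E.card := by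
  classical
  have h1 : ∑ S ∈ powersetCard m (univ : Finset V), (E.filter (fun e => S ⊆ e)).card =
      ∑ e ∈ E, ((powersetCard m (univ : Finset V)).filter (fun S => S ⊆ e)).card :=
    Finset.sum_card_bipartiteAbove_eq_sum_card_bipartiteBelow _
  have h2 : ∀ e ∈ E, ((powersetCard m (univ : Finset V)).filter (fun S => S ⊆ e)).card =
      (m + 2).choose 2 := by
    intro e he
    have : (powersetCard m (univ : Finset V)).filter (fun S => S ⊆ e) = powersetCard m e := by
      ext S
      simp only [mem_filter, mem_powersetCard, subset_univ, true_and]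
      exact and_comm
    rw [this, card_powersetCard, hE.card e he]
    rw [Nat.choose_symm_add]
  have h3 : (Fintype.card V).choose m * (Fintype.card V - m - 1) ≤
      ∑ S ∈ powersetCard m (univ : Finset V), (E.filter (fun e => S ⊆ e)).card := by
    rw [← card_univ, ← card_powersetCard, ← smul_eq_mul]
    refine Finset.card_nsmul_le_sum _ _ _ ?_
    intro S hS
    rw [card_univ]
    exact card_link hE (mem_powersetCard.1 hS).2 hV
  rw [h1, Finset.sum_congr rfl h2, sum_const, smul_eq_mul] at h3
  linarith

theorem phi_exists (d n : ℕ) :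
    ∃ E : Finset (Finset (Fin n)), IsBlocking d E ∧ E.card = phi d n := by
  classical
  have : ({m | ∃ E : Finset (Finset (Fin n)), IsBlocking d E ∧ E.card = m}).Nonempty := by
    refine ⟨_, powersetCard d univ, ⟨fun e he => (mem_powersetCard.1 he).2, ?_⟩, rfl⟩
    intro c hc
    obtain ⟨t, ht⟩ := hc.hasRightInverse
    exact ⟨univ.image t, mem_powersetCard.2 ⟨subset_univ _, (transversal_card ht).2⟩,
      fun i => ⟨t i, mem_image_of_mem _ (mem_univ _), ht i⟩⟩
  exact Nat.sInf_mem this

/-- Lower bound (known). -/
theorem lower (d n : ℕ) (hd : 2 ≤ d) (hn : d ≤ n) :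
    n.choose (d - 2) * (n - d + 1) ≤ d.choose 2 * phi d n := by
  obtain ⟨m, rfl⟩ : ∃ m, d = m + 2 := ⟨d - 2, by omega⟩
  obtain ⟨E, hE, hc⟩ := phi_exists (m + 2) n
  have h := lower_card hE (by rw [Fintype.card_fin]; exact hn)
  rw [Fintype.card_fin, hc] at h
  have e1 : m + 2 - 2 = m := rfl
  have e2 : n - m - 1 = n - (m + 2) + 1 := by omega
  rw [e1, ← e2]
  exact h

end Pool.Agent.Helper61.Blk
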