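import Mathlib

set_option autoImplicit false

namespace Pool.Agent.Helper61.Blk

open Finset Function

/-- `E` is a `d`-blocking set on `V`: its members are `d`-element sets, and for every map `c` of `V`
onto `d` colours (that is, every partition of `V` into `d` nonempty parts, its classes) some member of
`E` meets every class. -/
structure IsBlocking (d : ℕ) {V : Type} (E : Finset (Finset V)) : Prop where
  card : ∀ e ∈ E, e.card = d
  blocks : ∀ c : V → Fin d, Surjective c → ∃ e ∈ E, ∀ i : Fin d, ∃ x ∈ e, c x = i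

/-- `φ_d(n)`: the least size of a `d`-blocking set on an `n`-element set. -/
noncomputable def phi (d n : ℕ) : ℕ :=
  sInf {m | ∃ E : Finset (Finset (Fin n)), IsBlocking d E ∧ E.card = m}

theorem IsBlocking.blocks' {d : ℕ} {V : Type} {E : Finset (Finset V)}
    (h : IsBlocking d E) {C : Type} [Fintype C] (hC : Fintype.card C = d) (c : V → C)
    (hc : Surjective c) : ∃ e ∈ E, ∀ i : C, ∃ x ∈ e, c x = i := by
  let φ : C ≃ Fin d := Fintype.equivFinOfCardEq hC
  obtain ⟨e, he, h2⟩ := h.blocks (φ ∘ c) (φ.surjective.comp hc)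
  refine ⟨e, he, fun i => ?_⟩
  obtain ⟨x, hx, hxi⟩ := h2 (φ i)
  exact ⟨x, hx, φ.injective hxi⟩

theorem phi_le {d n : ℕ} {V : Type} [Fintype V] (hV : Fintype.card V = n)
    {E : Finset (Finset V)} (hE : IsBlocking d E) : phi d n ≤ E.card := by
  classical
  let φ : V ≃ Fin n := Fintype.equivFinOfCardEq hV
  refine Nat.sInf_le ⟨E.map (Finset.mapEmbedding φ.toEmbedding).toEmbedding, ⟨?_, ?_⟩, ?_⟩
  · intro e he
    obtain ⟨e', he', rfl⟩ := Finset.mem_map.1 he
    have : ((Finset.mapEmbedding φ.toEmbedding).toEmbedding e') = e'.map φ.toEmbedding := rfl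
    rw [this, Finset.card_map]
    exact hE.card e' he'
  · intro c hc
    obtain ⟨e, he, h2⟩ := hE.blocks (c ∘ φ) (hc.comp φ.surjective)
    refine ⟨e.map φ.toEmbedding, Finset.mem_map.2 ⟨e, he, rfl⟩, fun i => ?_⟩
    obtain ⟨x, hx, hxi⟩ := h2 i
    exact ⟨φ x, Finset.mem_map.2 ⟨x, hx, rfl⟩, hxi⟩
  · rw [Finset.card_map]

/-! ### the construction -/

/-- `d`-subsets of `ℤ/n` with sum `s`. -/
noncomputable def sumSet (n : ℕ) [NeZero n] (d : ℕ) (s : ZMod n) : Finset (Finset (ZMod n)) :=
  (powersetCard d (univ : Finset (ZMod n))).filter (fun e => ∑ x ∈ e, x = s)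

/-- `d`-subsets of `ℤ/n` which contain `0` and two adjacent elements `x, x + 1` different from `0`. -/
noncomputable def adjSet (n : ℕ) [NeZero n] (d : ℕ) : Finset (Finset (ZMod n)) :=
  (powersetCard d (univ : Finset (ZMod n))).filter
    (fun e => 0 ∈ e ∧ ∃ x, x ≠ 0 ∧ x + 1 ≠ 0 ∧ x ≠ x + 1 ∧ x ∈ e ∧ x + 1 ∈ e)

theorem card_sumSet_le (n : ℕ) [NeZero n] (d : ℕ) (s : ZMod n) :
    d * (sumSet n d s).card ≤ n.choose (d - 1) := by
  classical
  have h1 : d * (sumSet n d s).card = ((sumSet n d s).sigma (fun e => e)).card := by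
    rw [Finset.card_sigma, Finset.sum_const_nat (m := d)]
    · ring
    · intro e he
      exact (mem_powersetCard.1 (mem_filter.1 he).1).2
  have h2 : n.choose (d - 1) = (powersetCard (d - 1) (univ : Finset (ZMod n))).card := by
    rw [card_powersetCard, card_univ, ZMod.card]
  rw [h1, h2]
  refine Finset.card_le_card_of_injOn (fun p => p.1.erase p.2) ?_ ?_
  · rintro ⟨e, x⟩ h
    have h' := Finset.mem_sigma.1 h
    rw [Finset.mem_coe, mem_powersetCard]
    refine ⟨subset_univ _, ?_⟩
    have h3 := (mem_powersetCard.1 (mem_filter.1 h'.1).1).2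
    simp only at h3 h' ⊢
    rw [card_erase_of_mem h'.2, h3]
  · rintro ⟨e, x⟩ h ⟨e', x'⟩ h' hh
    have hm := Finset.mem_sigma.1 h
    have hm' := Finset.mem_sigma.1 h'
    simp only at hm hm' hh
    have hs : ∑ y ∈ e, y = s := (mem_filter.1 hm.1).2
    have hs' : ∑ y ∈ e', y = s := (mem_filter.1 hm'.1).2
    rw [← Finset.add_sum_erase _ _ hm.2] at hs
    rw [← Finset.add_sum_erase _ _ hm'.2, ← hh] at hs'
    have hx : x = x' := by
      have := hs.trans hs'.symm
      exact add_right_cancel this
    subst hx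
    have : e = e' := by
      rw [← Finset.insert_erase hm.2, hh, Finset.insert_erase hm'.2]
    subst this
    rfl

theorem card_adjSet_le (n : ℕ) [NeZero n] (d : ℕ) :
    (adjSet n d).card ≤ n * n.choose (d - 3) := by
  classical
  have h2 : n * n.choose (d - 3) =
      ((univ : Finset (ZMod n)) ×ˢ powersetCard (d - 3) (univ : Finset (ZMod n))).card := by
    rw [card_product, card_powersetCard, card_univ, ZMod.card]
  rw [h2]
  refine Finset.card_le_card_of_surjOn
    (fun p => insert 0 (insert p.1 (insert (p.1 + 1) p.2))) ?_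
  intro e he
  obtain ⟨h1, h0, x, hx, hx1, hxx, hxe, hx1e⟩ := mem_filter.1 (Finset.mem_coe.1 he)
  have hc := (mem_powersetCard.1 h1).2
  have hsub : ({0, x, x + 1} : Finset (ZMod n)) ⊆ e := by
    intro y hy
    simp only [mem_insert, mem_singleton] at hy
    rcases hy with rfl | rfl | rfl <;> assumption
  have hc3 : ({0, x, x + 1} : Finset (ZMod n)).card = 3 :=
    Finset.card_eq_three.2 ⟨0, x, x + 1, hx.symm, hx1.symm, hxx, rfl⟩
  refine ⟨(x, e \ {0, x, x + 1}), ?_, ?_⟩
  · rw [Finset.mem_coe, mem_product, mem_powersetCard]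
    refine ⟨mem_univ _, subset_univ _, ?_⟩
    rw [card_sdiff_of_subset hsub, hc, hc3]
  · simp only
    ext y
    simp only [mem_insert, mem_sdiff, mem_singleton]
    constructor
    · rintro (rfl | rfl | rfl | h)
      · exact h0
      · exact hxe
      · exact hx1e
      · exact h.1
    · intro hy
      by_cases hy1 : y = 0
      · exact Or.inl hy1
      by_cases hy2 : y = x
      · exact Or.inr (Or.inl hy2)
      by_cases hy3 : y = x + 1
      · exact Or.inr (Or.inr (Or.inl hy3))
      · exact Or.inr (Or.inr (Or.inr ⟨hy, by push Not; exact ⟨hy1, hy2, hy3⟩⟩))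

/-- a transversal as a set -/
theorem transversal_card {d : ℕ} {V : Type} [DecidableEq V] {c : V → Fin d} {t : Fin d → V}
    (ht : ∀ i, c (t i) = i) : Injective t ∧ (univ.image t).card = d := by
  have hinj : Injective t := by
    intro i j hij
    rw [← ht i, ← ht j, hij]
  exact ⟨hinj, by rw [card_image_of_injective _ hinj, card_univ, Fintype.card_fin]⟩

theorem exists_adj {n : ℕ} [NeZero n] {d : ℕ} (c : ZMod n → Fin d) (hc : Surjective c)
    (h0 : ∀ t : Fin d → ZMod n, (∀ i, c (t i) = i) → ∑ i, t i ≠ 0 ∧ ∑ i, t i ≠ 1)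
    (i0 : Fin d) (hd : ∃ i1, i1 ≠ i0) :
    ∃ x, c x ≠ i0 ∧ c (x + 1) ≠ i0 ∧ c x ≠ c (x + 1) := by
  classical
  by_contra hcon
  push Not at hcon
  obtain ⟨t0, ht0⟩ := hc.hasRightInverse
  -- partial transversals
  have F : ∀ t : Fin d → ZMod n, (∀ i, i ≠ i0 → c (t i) = i) →
      c (-∑ i ∈ univ.erase i0, t i) ≠ i0 ∧ c (1 - ∑ i ∈ univ.erase i0, t i) ≠ i0 := by
    intro t ht
    have key : ∀ s : ZMod n, s = 0 ∨ s = 1 → c (s - ∑ i ∈ univ.erase i0, t i) ≠ i0 := by
      intro s hs hh
      have h1 := h0 (update t i0 (s - ∑ i ∈ univ.erase i0, t i)) (by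
        intro i
        by_cases hi : i = i0
        · subst hi; simpa using hh
        · rw [update_of_ne hi]; exact ht i hi)
      have h2 : ∑ i, update t i0 (s - ∑ i ∈ univ.erase i0, t i) i = s := by
        rw [← Finset.add_sum_erase _ _ (mem_univ i0), update_self]
        rw [Finset.sum_congr rfl (fun i hi => update_of_ne (Finset.ne_of_mem_erase hi) _ _)]
        ring
      rw [h2] at h1
      rcases hs with rfl | rfl
      · exact h1.1 rfl
      · exact h1.2 rfl
    refine ⟨?_, key 1 (Or.inr rfl)⟩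
    have := key 0 (Or.inl rfl)
    rwa [zero_sub] at this
  set S := ∑ i ∈ univ.erase i0, t0 i with hS
  have hw := F t0 (fun i _ => ht0 i)
  set w := -S with hwdef
  have hw1 : c (w + 1) ≠ i0 := by
    have : w + 1 = 1 - S := by rw [hwdef]; ring
    rw [this]; exact hw.2
  set j := c w with hj
  have hji : j ≠ i0 := hw.1
  have hjm : j ∈ univ.erase i0 := Finset.mem_erase.2 ⟨hji, mem_univ _⟩
  -- replace the coordinate `j`
  have R : ∀ y, c y = j → c (w + t0 j - y) ≠ i0 ∧ c (w + t0 j - y + 1) ≠ i0 := by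
    intro y hy
    have h1 := F (update t0 j y) (by
      intro i hi
      by_cases hij : i = j
      · subst hij; simpa using hy
      · rw [update_of_ne hij]; exact ht0 i)
    have h2 : ∑ i ∈ univ.erase i0, update t0 j y i = S - t0 j + y := by
      rw [← Finset.add_sum_erase _ _ hjm, update_self]
      rw [Finset.sum_congr rfl (fun i hi => update_of_ne (Finset.ne_of_mem_erase hi) _ _)]
      rw [hS, ← Finset.add_sum_erase _ _ hjm]
      ring
    rw [h2] at h1
    constructor
    · have : w + t0 j - y = -(S - t0 j + y) := by rw [hwdef]; ring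
      rw [this]; exact h1.1
    · have : w + t0 j - y + 1 = 1 - (S - t0 j + y) := by rw [hwdef]; ring
      rw [this]; exact h1.2
  have P : ∀ m : ℕ, c (t0 j + m) = j ∧ c (w - m) = j := by
    intro m
    induction m with
    | zero => exact ⟨by simpa using ht0 j, by simp [hj]⟩
    | succ m ih =>
      have e1 := R (w - m) ih.2
      have e2 : w + t0 j - (w - m) = t0 j + m := by ring
      rw [e2] at e1
      have e3 := hcon (t0 j + m) e1.1 e1.2
      have e4 : c (t0 j + (m + 1 : ℕ)) = j := by
        push_cast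
        rw [← add_assoc, ← e3, ih.1]
      refine ⟨e4, ?_⟩
      have e5 := R (t0 j + (m + 1 : ℕ)) e4
      have e6 : w + t0 j - (t0 j + (m + 1 : ℕ)) = w - (m + 1 : ℕ) := by ring
      rw [e6] at e5
      have e7 : w - ((m + 1 : ℕ) : ZMod n) + 1 = w - m := by push_cast; ring
      have e8 := hcon _ e5.1 e5.2
      rw [e8, e7, ih.2]
  have : c (t0 i0) = j := by
    have h1 := (P (t0 i0 - t0 j).val).1
    rw [ZMod.natCast_zmod_val] at h1
    rwa [add_sub_cancel] at h1
  rw [ht0 i0] at this
  exact hji this.symm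

theorem isBlocking_union (n : ℕ) [NeZero n] (d : ℕ) (hd : 3 ≤ d) :
    IsBlocking d (sumSet n d 0 ∪ sumSet n d 1 ∪ adjSet n d) := by
  classical
  constructor
  · intro e he
    simp only [mem_union, sumSet, adjSet, mem_filter, mem_powersetCard] at he
    rcases he with (h | h) | h <;> exact h.1.2
  · intro c hc
    by_cases h0 : ∀ t : Fin d → ZMod n, (∀ i, c (t i) = i) → ∑ i, t i ≠ 0 ∧ ∑ i, t i ≠ 1
    · obtain ⟨x, hx, hx1, hxx⟩ := exists_adj c hc h0 (c 0) (by
        have : Nontrivial (Fin d) := Fin.nontrivial_iff_two_le.2 (by omega)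
        exact exists_ne _)
      obtain ⟨t0, ht0⟩ := hc.hasRightInverse
      set t : Fin d → ZMod n := fun i =>
        if i = c 0 then 0 else if i = c x then x else if i = c (x + 1) then x + 1 else t0 i with ht
      have htc : ∀ i, c (t i) = i := by
        intro i
        simp only [ht]
        split_ifs with h1 h2 h3
        · exact h1.symm
        · exact h2.symm
        · exact h3.symm
        · exact ht0 i
      obtain ⟨hinj, hcard⟩ := transversal_card htc
      have m0 : (0 : ZMod n) ∈ univ.image t :=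
        mem_image.2 ⟨c 0, mem_univ _, by simp [ht]⟩
      have mx : x ∈ univ.image t :=
        mem_image.2 ⟨c x, mem_univ _, by simp [ht, hx]⟩
      have mx1 : x + 1 ∈ univ.image t :=
        mem_image.2 ⟨c (x + 1), mem_univ _, by simp [ht, hx1, hxx.symm]⟩
      refine ⟨univ.image t, ?_, fun i => ⟨t i, mem_image_of_mem _ (mem_univ _), htc i⟩⟩
      refine mem_union_right _ (mem_filter.2 ⟨mem_powersetCard.2 ⟨subset_univ _, hcard⟩, m0, x, ?_, ?_, ?_,
        mx, mx1⟩)
      · rintro rfl; exact hx rfl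
      · intro h; rw [h] at hx1; exact hx1 rfl
      · intro h; exact hxx (congrArg c h)
    · push Not at h0
      obtain ⟨t, htc, hs⟩ := h0
      obtain ⟨hinj, hcard⟩ := transversal_card htc
      have hsum : ∑ y ∈ univ.image t, y = ∑ i, t i := by
        rw [Finset.sum_image (fun a _ b _ h => hinj h)]
      refine ⟨univ.image t, mem_union_left _ ?_, fun i => ⟨t i, mem_image_of_mem _ (mem_univ _), htc i⟩⟩
      by_cases h : ∑ i, t i = 0
      · exact mem_union_left _ (mem_filter.2 ⟨mem_powersetCard.2 ⟨subset_univ _, hcard⟩, hsum.trans h⟩)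
      · exact mem_union_right _ (mem_filter.2 ⟨mem_powersetCard.2 ⟨subset_univ _, hcard⟩,
          hsum.trans (hs h)⟩)

/-- Upper bound. -/
theorem upper (d n : ℕ) (hd : 3 ≤ d) (hn : 1 ≤ n) :
    d * phi d n ≤ 2 * n.choose (d - 1) + d * (n * n.choose (d - 3)) := by
  classical
  have : NeZero n := ⟨by omega⟩
  have h1 := phi_le (ZMod.card n) (isBlocking_union n d hd)
  have h2 : (sumSet n d 0 ∪ sumSet n d 1 ∪ adjSet n d).card ≤
      (sumSet n d 0).card + (sumSet n d 1).card + (adjSet n d).card :=
    (card_union_le _ _).trans (Nat.add_le_add_right (card_union_le _ _) _)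
  have h3 := card_sumSet_le n d 0
  have h4 := card_sumSet_le n d 1
  have h5 := card_adjSet_le n d
  calc d * phi d n ≤ d * ((sumSet n d 0).card + (sumSet n d 1).card + (adjSet n d).card) :=
        Nat.mul_le_mul_left _ (h1.trans h2)
    _ = d * (sumSet n d 0).card + d * (sumSet n d 1).card + d * (adjSet n d).card := by ring
    _ ≤ n.choose (d - 1) + n.choose (d - 1) + d * (n * n.choose (d - 3)) := by
        gcongr
    _ = _ := by ring

end Pool.Agent.Helper61.Blk
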